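import Pool.Agent.MP_515557_an.H63.Main

set_option autoImplicit false

namespace Pool.Agent.Results.MP_515557_an.Homogeneous

/-- Every rank-one convex function on real two by two matrices that is positively homogeneous of
some degree and invariant under rotations on both sides is quasiconvex. -/
theorem result :
    ∀ (p : ℝ) (W : Matrix (Fin 2) (Fin 2) ℝ → ℝ),
      (∀ t : ℝ, 0 < t → ∀ F, W (t • F) = t ^ p * W F) →
      (∀ R ∈ Matrix.specialOrthogonalGroup (Fin 2) ℝ,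
        ∀ S ∈ Matrix.specialOrthogonalGroup (Fin 2) ℝ, ∀ F, W (R * F * S) = W F) →
      (∀ F H : Matrix (Fin 2) (Fin 2) ℝ, H.rank = 1 →
        ∀ t : ℝ, 0 ≤ t → t ≤ 1 →
          W ((1 - t) • F + t • (F + H)) ≤ (1 - t) * W F + t * W (F + H)) →
      ∀ F₀ : Matrix (Fin 2) (Fin 2) ℝ, ∀ Ω : Set (Fin 2 → ℝ),
        IsOpen Ω → Bornology.IsBounded Ω →
        ∀ ϑ : (Fin 2 → ℝ) → (Fin 2 → ℝ), (∃ K, LipschitzWith K ϑ) →
          (∀ x, x ∉ Ω → ϑ x = 0) →
          W F₀ * (MeasureTheory.volume Ω).toReal ≤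
            ∫ x in Ω, W (F₀ + LinearMap.toMatrix'
              ((fderiv ℝ ϑ x : (Fin 2 → ℝ) →L[ℝ] (Fin 2 → ℝ)) :
                (Fin 2 → ℝ) →ₗ[ℝ] (Fin 2 → ℝ))) :=
  fun p W hom hiso hrc => Pool.Agent.MP_515557_an.H63.hom_main p W hom hiso hrc

end Pool.Agent.Results.MP_515557_an.Homogeneous
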