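import Pool.Agent.MP_515557_an.H11.MMain

set_option autoImplicit false

namespace Pool.Agent.Results.MP_515557_an.Iwaniec

open Pool.Agent.MP_515557_an.H11.Mono in
/-- The integrand `K ^ p * (anticonformal part) ^ p - (conformal part) ^ p` is quasiconvex at the
origin for the sharp constant `K = max p (p / (p - 1)) - 1`. -/
theorem result :
    ∀ p : ℝ, 1 < p → ∀ Ω : Set (Fin 2 → ℝ), IsOpen Ω → Bornology.IsBounded Ω →
      ∀ ϑ : (Fin 2 → ℝ) → (Fin 2 → ℝ), (∃ K, LipschitzWith K ϑ) → (∀ x, x ∉ Ω → ϑ x = 0) →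
        ∀ D : (Fin 2 → ℝ) → Matrix (Fin 2) (Fin 2) ℝ,
          (∀ x, D x = LinearMap.toMatrix'
            ((fderiv ℝ ϑ x : (Fin 2 → ℝ) →L[ℝ] (Fin 2 → ℝ)) : (Fin 2 → ℝ) →ₗ[ℝ] (Fin 2 → ℝ))) →
          ∫ x in Ω, (√((D x 0 0 + D x 1 1) ^ 2 + (D x 1 0 - D x 0 1) ^ 2) / 2) ^ p ≤
            (max p (p / (p - 1)) - 1) ^ p *
              ∫ x in Ω, (√((D x 0 0 - D x 1 1) ^ 2 + (D x 1 0 + D x 0 1) ^ 2) / 2) ^ p := by
  intro p hp Ω hΩ hb ϑ hL h0 D hD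
  simpa only [norm_cz_toCLM, norm_cw_toCLM] using
    iwaniec sbms Pool.Agent.MP_515557_an.H79.moll hp hΩ hb hL h0 D hD

end Pool.Agent.Results.MP_515557_an.Iwaniec
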