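import Pool.Agent.MP_515557_an.H11.MMain

set_option autoImplicit false

namespace Pool.Agent.Results.MP_515557_an.OperatorNormClass

/-- Every rank-one convex function of the form `α |F| + β |F| * det F`, with `|F|` the operator
norm, is quasiconvex. -/
theorem result :
    ∀ (α β : ℝ → ℝ) (W N : Matrix (Fin 2) (Fin 2) ℝ → ℝ),
      (∀ F, IsGreatest {r : ℝ | ∃ x y : ℝ, x ^ 2 + y ^ 2 = 1 ∧
        r = √((F 0 0 * x + F 0 1 * y) ^ 2 + (F 1 0 * x + F 1 1 * y) ^ 2)} (N F)) →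
      (∀ F, W F = α (N F) + β (N F) * F.det) →
      (∀ F H : Matrix (Fin 2) (Fin 2) ℝ, H.rank = 1 →
        ∀ t : ℝ, 0 ≤ t → t ≤ 1 →
          W ((1 - t) • F + t • (F + H)) ≤ (1 - t) * W F + t * W (F + H)) →
      ∀ F₀ : Matrix (Fin 2) (Fin 2) ℝ, ∀ Ω : Set (Fin 2 → ℝ),
        IsOpen Ω → Bornology.IsBounded Ω →
        ∀ ϑ : (Fin 2 → ℝ) → (Fin 2 → ℝ), (∃ K, LipschitzWith K ϑ) →
          (∀ x, x ∉ Ω → ϑ x = 0) →
          W F₀ * (MeasureTheory.volume Ω).toReal ≤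
            ∫ x in Ω, W (F₀ + LinearMap.toMatrix'
              ((fderiv ℝ ϑ x : (Fin 2 → ℝ) →L[ℝ] (Fin 2 → ℝ)) :
                (Fin 2 → ℝ) →ₗ[ℝ] (Fin 2 → ℝ))) :=
  fun α β W N hN hW hrc => Pool.Agent.MP_515557_an.H11.Mono.class_main
    Pool.Agent.MP_515557_an.H11.Mono.sbms Pool.Agent.MP_515557_an.H79.moll α β W N hN hW hrc

end Pool.Agent.Results.MP_515557_an.OperatorNormClass
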