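import Pool.Agent.MP_515557_an.H65.Main

set_option autoImplicit false

namespace Pool.Agent.Results.MP_515557_an.TwoByThree

open Pool.Agent.MP_515557_an.H65

/-- Rank-one convexity does not imply quasiconvexity on real 2 by 3 matrices
(maps from three dimensional space to the plane): an explicit polynomial of degree six is
rank-one convex and violates the quasiconvexity inequality for a smooth test map. -/
theorem result :
    ∃ W : Matrix (Fin 2) (Fin 3) ℝ → ℝ,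
      (∃ ε : ℝ, 0 < ε ∧ ∀ F : Matrix (Fin 2) (Fin 3) ℝ, W F =
        (F 0 0 * F 1 1 - F 0 1 * F 1 0) ^ 2 + (F 0 0 * F 1 2 - F 0 2 * F 1 0) ^ 2
          - (F 0 1 * F 1 2 - F 0 2 * F 1 1) ^ 2
          + ε * (F 0 0 ^ 2 + F 0 1 ^ 2 + F 0 2 ^ 2 + F 1 0 ^ 2 + F 1 1 ^ 2 + F 1 2 ^ 2) ^ 3
          + ε⁻¹ * ((F 0 1 + F 1 2 - F 0 0) ^ 2 + (F 1 1 - F 0 2 + F 1 0) ^ 2)) ∧
      (∀ F H : Matrix (Fin 2) (Fin 3) ℝ, H.rank = 1 →
        ∀ t : ℝ, 0 ≤ t → t ≤ 1 →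
          W ((1 - t) • F + t • (F + H)) ≤ (1 - t) * W F + t * W (F + H)) ∧
      ∃ F₀ : Matrix (Fin 2) (Fin 3) ℝ, ∃ Ω : Set (Fin 3 → ℝ),
        IsOpen Ω ∧ Bornology.IsBounded Ω ∧
        ∃ ϑ : (Fin 3 → ℝ) → (Fin 2 → ℝ), ContDiff ℝ (⊤ : ℕ∞) ϑ ∧ (∃ K, LipschitzWith K ϑ) ∧
          (∀ x, x ∉ Ω → ϑ x = 0) ∧
          MeasureTheory.IntegrableOn (fun x => W (F₀ + LinearMap.toMatrix'
              ((fderiv ℝ ϑ x : (Fin 3 → ℝ) →L[ℝ] (Fin 2 → ℝ)) :
                (Fin 3 → ℝ) →ₗ[ℝ] (Fin 2 → ℝ)))) Ω ∧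
          ∫ x in Ω, W (F₀ + LinearMap.toMatrix'
              ((fderiv ℝ ϑ x : (Fin 3 → ℝ) →L[ℝ] (Fin 2 → ℝ)) :
                (Fin 3 → ℝ) →ₗ[ℝ] (Fin 2 → ℝ)))
            < W F₀ * (MeasureTheory.volume Ω).toReal := by
  obtain ⟨η, M, R, hη, hM, hR, hneg⟩ := exists_negative
  refine ⟨WW η, ⟨η, hη, fun F => rfl⟩, WW_rankOneConvex η hη, 0, Metric.ball 0 (2 * R),
    Metric.isOpen_ball, Metric.isBounded_ball, th M R, contDiff_th hM R, ?_, th_eq_zero M hR,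
    ?_, ?_⟩
  · refine ContDiff.lipschitzWith_of_hasCompactSupport ?_ (contDiff_th hM R) (by simp)
    exact HasCompactSupport.intro (isCompact_closedBall (0 : Pt) (2 * R))
      fun x hx => th_eq_zero M hR x fun h => hx (Metric.ball_subset_closedBall h)
  · simp only [zero_add]
    exact integrableOn_ball ((continuous_WW η).comp (continuous_grad (contDiff_th hM R))) _
  · simp only [zero_add, WW_zero, zero_mul]
    exact hneg

end Pool.Agent.Results.MP_515557_an.TwoByThree
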